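import Pool.Agent.J4H5.RZ.Stm

/-! (MV) mean value theorem with the trivial estimate off the diagonal. -/

set_option autoImplicit false

namespace Pool.Agent.J4H45.RZ

open Complex MeasureTheory
open Pool.Agent.J4H5.RZ

theorem recip_sum {M m : ℕ} (hm : m ∈ Finset.Icc 1 M) :
    ∑ n ∈ Finset.Icc 1 M, (if m = n then (0 : ℝ) else 1 / |(n : ℝ) - m|) ≤ 2 * (1 + Real.log M) := by
  rw [Finset.mem_Icc] at hm
  have hH : ∑ j ∈ Finset.Icc 1 M, (1 : ℝ) / j ≤ 1 + Real.log M := by
    have h := harmonic_le_one_add_log M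
    rw [harmonic_eq_sum_Icc] at h
    push_cast at h
    simpa [one_div] using h
  have h1 : ∀ n ∈ Finset.Icc 1 M, (if m = n then (0 : ℝ) else 1 / |(n : ℝ) - m|) =
      (if n < m then 1 / (((m - n : ℕ) : ℝ)) else 0) + (if m < n then 1 / (((n - m : ℕ) : ℝ)) else 0) := by
    intro n _
    rcases lt_trichotomy n m with h | h | h
    · rw [if_neg (by omega), if_pos h, if_neg (by omega), add_zero, Nat.cast_sub h.le]
      have : (n : ℝ) < m := by exact_mod_cast h
      rw [abs_of_neg (by linarith)]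
      congr 1
      ring
    · rw [if_pos h.symm, if_neg (by omega), if_neg (by omega), add_zero]
    · rw [if_neg (by omega), if_neg (by omega), if_pos h, zero_add, Nat.cast_sub h.le]
      have : (m : ℝ) < n := by exact_mod_cast h
      rw [abs_of_pos (by linarith)]
  rw [Finset.sum_congr rfl h1, Finset.sum_add_distrib]
  have h2 : ∑ n ∈ Finset.Icc 1 M, (if n < m then 1 / (((m - n : ℕ) : ℝ)) else 0) ≤ ∑ j ∈ Finset.Icc 1 M, (1 : ℝ) / j := by
    rw [← Finset.sum_filter]
    have e : ∑ n ∈ (Finset.Icc 1 M).filter (fun n => n < m), 1 / (((m - n : ℕ) : ℝ)) =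
        ∑ j ∈ ((Finset.Icc 1 M).filter (fun n => n < m)).image (fun n => m - n), (1 : ℝ) / j := by
      rw [Finset.sum_image]
      intro a ha b hb hab
      simp only [Finset.coe_filter, Finset.mem_Icc, Set.mem_ofPred_eq] at ha hb hab
      omega
    rw [e]
    apply Finset.sum_le_sum_of_subset_of_nonneg
    · intro j hj
      simp only [Finset.mem_image, Finset.mem_filter, Finset.mem_Icc] at hj ⊢
      obtain ⟨a, ha, rfl⟩ := hj
      omega
    · intro j _ _
      positivity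
  have h3 : ∑ n ∈ Finset.Icc 1 M, (if m < n then 1 / (((n - m : ℕ) : ℝ)) else 0) ≤ ∑ j ∈ Finset.Icc 1 M, (1 : ℝ) / j := by
    rw [← Finset.sum_filter]
    have e : ∑ n ∈ (Finset.Icc 1 M).filter (fun n => m < n), 1 / (((n - m : ℕ) : ℝ)) =
        ∑ j ∈ ((Finset.Icc 1 M).filter (fun n => m < n)).image (fun n => n - m), (1 : ℝ) / j := by
      rw [Finset.sum_image]
      intro a ha b hb hab
      simp only [Finset.coe_filter, Finset.mem_Icc, Set.mem_ofPred_eq] at ha hb hab
      omega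
    rw [e]
    apply Finset.sum_le_sum_of_subset_of_nonneg
    · intro j hj
      simp only [Finset.mem_image, Finset.mem_filter, Finset.mem_Icc] at hj ⊢
      obtain ⟨a, ha, rfl⟩ := hj
      omega
    · intro j _ _
      positivity
  linarith

/-- the integral of an additive character -/
theorem int_char {om : ℝ} (hom : om ≠ 0) (V T : ℝ) :
    ‖∫ v in V..(V + T), cexp ((I * om) * (v : ℂ))‖ ≤ 2 / |om| := by
  have h0 : (I * (om : ℂ)) ≠ 0 := mul_ne_zero I_ne_zero (by exact_mod_cast hom)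
  rw [integral_exp_mul_complex h0, norm_div, norm_mul, Complex.norm_I, one_mul, Complex.norm_real, Real.norm_eq_abs]
  apply div_le_div_of_nonneg_right _ (abs_nonneg _)
  refine (norm_sub_le _ _).trans ?_
  have e : ∀ x : ℝ, ‖cexp (I * (om : ℂ) * (x : ℂ))‖ = 1 := by
    intro x
    rw [show I * (om : ℂ) * (x : ℂ) = ((om * x : ℝ) : ℂ) * I by push_cast; ring, Complex.norm_exp_ofReal_mul_I]
  rw [e, e]
  norm_num

theorem log_gap {M m n : ℕ} (hm : m ∈ Finset.Icc 1 M) (hn : n ∈ Finset.Icc 1 M) (h : m ≠ n) :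
    |(n : ℝ) - m| / M ≤ |Real.log n - Real.log m| := by
  rw [Finset.mem_Icc] at hm hn
  have key : ∀ a b : ℕ, 1 ≤ a → a < b → b ≤ M → |(b : ℝ) - a| / M ≤ |Real.log b - Real.log a| := by
    intro a b ha hab hb
    have ha0 : (0 : ℝ) < a := by exact_mod_cast ha
    have hb0 : (0 : ℝ) < b := by exact_mod_cast (by omega : 0 < b)
    have hM0 : (b : ℝ) ≤ M := by exact_mod_cast hb
    have hab' : (a : ℝ) < b := by exact_mod_cast hab
    rw [abs_of_pos (by linarith), ← Real.log_div hb0.ne' ha0.ne']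
    have h1 := Real.one_sub_inv_le_log_of_pos (show 0 < (b : ℝ) / a by positivity)
    have h2 : ((b : ℝ) - a) / M ≤ 1 - ((b : ℝ) / a)⁻¹ := by
      rw [inv_div, div_le_iff₀ (by linarith)]
      have : (1 - (a : ℝ) / b) * M = ((b : ℝ) - a) * (M / b) := by
        field_simp
      rw [this]
      have h3 : 1 ≤ (M : ℝ) / b := by rw [le_div_iff₀ hb0]; linarith
      nlinarith
    exact (h2.trans h1).trans (le_abs_self _)
  rcases lt_or_gt_of_ne h with h1 | h1
  · exact key m n hm.1 h1 hn.2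
  · rw [abs_sub_comm, abs_sub_comm (Real.log n)]
    exact key n m hn.1 h1 hm.2

theorem t_MV : S_MV := by
  refine ⟨12, by norm_num, fun M c V T hT => ?_⟩
  rcases Nat.eq_zero_or_pos M with hM | hM
  · subst hM
    simp
  have hM1 : (1 : ℝ) ≤ M := by exact_mod_cast hM
  have hcast : ∀ m ∈ Finset.Icc 1 M, ∀ v : ℝ, (m : ℂ) ^ (-(I * (v : ℂ))) = cexp (-(I * Real.log m * v)) := by
    intro m hm v
    rw [Finset.mem_Icc] at hm
    rw [Complex.cpow_def_of_ne_zero (by exact_mod_cast (by omega : m ≠ 0)), ← Complex.natCast_log]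
    congr 1
    ring
  have hsq : ∀ v : ℝ, (((‖∑ m ∈ Finset.Icc 1 M, c m * (m : ℂ) ^ (-(I * (v : ℂ)))‖ ^ 2 : ℝ)) : ℂ) =
      ∑ m ∈ Finset.Icc 1 M, ∑ n ∈ Finset.Icc 1 M, c m * (starRingEnd ℂ) (c n) *
        cexp ((I * ((Real.log n - Real.log m : ℝ) : ℂ)) * (v : ℂ)) := by
    intro v
    push_cast
    rw [← Complex.mul_conj', map_sum, Finset.sum_mul_sum]
    apply Finset.sum_congr rfl
    intro m hm
    apply Finset.sum_congr rfl
    intro n hn
    rw [hcast m hm, hcast n hn, map_mul, ← Complex.exp_conj]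
    have e : (starRingEnd ℂ) (-(I * (Real.log n : ℂ) * (v : ℂ))) = I * Real.log n * v := by
      rw [map_neg, map_mul, map_mul, Complex.conj_I, Complex.conj_ofReal, Complex.conj_ofReal]
      ring
    rw [e]
    have e2 : c m * cexp (-(I * (Real.log m : ℂ) * v)) * ((starRingEnd ℂ) (c n) * cexp (I * Real.log n * v)) =
        c m * (starRingEnd ℂ) (c n) * (cexp (-(I * (Real.log m : ℂ) * v)) * cexp (I * Real.log n * v)) := by ring
    rw [e2, ← Complex.exp_add]
    congr 2
    push_cast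
    ring
  have hI : (((∫ v in V..(V + T), ‖∑ m ∈ Finset.Icc 1 M, c m * (m : ℂ) ^ (-(I * (v : ℂ)))‖ ^ 2 : ℝ)) : ℂ) =
      ∑ m ∈ Finset.Icc 1 M, ∑ n ∈ Finset.Icc 1 M, c m * (starRingEnd ℂ) (c n) *
        ∫ v in V..(V + T), cexp ((I * ((Real.log n - Real.log m : ℝ) : ℂ)) * (v : ℂ)) := by
    rw [← intervalIntegral.integral_ofReal]
    rw [intervalIntegral.integral_congr (g := fun v : ℝ => ∑ m ∈ Finset.Icc 1 M, ∑ n ∈ Finset.Icc 1 M,
      c m * (starRingEnd ℂ) (c n) * cexp ((I * ((Real.log n - Real.log m : ℝ) : ℂ)) * (v : ℂ))) (fun v _ => hsq v)]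
    rw [intervalIntegral.integral_finsetSum]
    · apply Finset.sum_congr rfl
      intro m _
      rw [intervalIntegral.integral_finsetSum]
      · apply Finset.sum_congr rfl
        intro n _
        rw [intervalIntegral.integral_const_mul]
      · intro n _
        exact Continuous.intervalIntegrable (by fun_prop) _ _
    · intro m _
      exact Continuous.intervalIntegrable (by fun_prop) _ _
  obtain ⟨w, hw⟩ : ∃ w : ℕ → ℕ → ℝ, w = fun (m n : ℕ) => T * (if m = n then 1 else 0) + 2 * M * (if m = n then (0 : ℝ) else 1 / |(n : ℝ) - m|) :=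
    ⟨_, rfl⟩
  have hw0 : ∀ m n, 0 ≤ w m n := by
    intro m n
    rw [hw]
    simp only
    split_ifs <;> positivity
  have hws : ∀ m n, w m n = w n m := by
    intro m n
    rw [hw]
    simp only
    rw [abs_sub_comm (n : ℝ)]
    by_cases h : m = n
    · rw [if_pos h, if_pos h, if_pos h.symm, if_pos h.symm]
    · have h' : ¬ n = m := fun h' => h h'.symm
      rw [if_neg h, if_neg h, if_neg h', if_neg h']
  have hJ : ∀ m ∈ Finset.Icc 1 M, ∀ n ∈ Finset.Icc 1 M,
      ‖∫ v in V..(V + T), cexp ((I * ((Real.log n - Real.log m : ℝ) : ℂ)) * (v : ℂ))‖ ≤ w m n := by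
    intro m hm n hn
    rw [hw]
    simp only
    by_cases h : m = n
    · rw [if_pos h, if_pos h, h]
      simp only [sub_self, ofReal_zero, mul_zero, zero_mul, Complex.exp_zero, mul_one, add_zero]
      rw [intervalIntegral.integral_const, add_sub_cancel_left]
      simp [abs_of_nonneg (show (0 : ℝ) ≤ T by linarith)]
    · rw [if_neg h, if_neg h, mul_zero, zero_add]
      have h1 := log_gap hm hn h
      have hne : (n : ℝ) ≠ m := by
        intro h'
        exact h (by exact_mod_cast h'.symm)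
      have h2 : 0 < |(n : ℝ) - m| := abs_pos.2 (sub_ne_zero.2 hne)
      have h3 : 0 < |(n : ℝ) - m| / M := by positivity
      have hom : Real.log n - Real.log m ≠ 0 := abs_pos.1 (lt_of_lt_of_le h3 h1)
      refine (int_char hom V T).trans ?_
      have h4 : 2 / |Real.log n - Real.log m| ≤ 2 / (|(n : ℝ) - m| / M) :=
        div_le_div_of_nonneg_left (by norm_num) h3 h1
      refine h4.trans (le_of_eq ?_)
      field_simp
  have hrow : ∀ m ∈ Finset.Icc 1 M, ∑ n ∈ Finset.Icc 1 M, w m n ≤ 12 * (T + M * Real.log (M + 1)) := by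
    intro m hm
    rw [hw]
    simp only
    rw [Finset.sum_add_distrib, ← Finset.mul_sum, ← Finset.mul_sum]
    have h1 : ∑ n ∈ Finset.Icc 1 M, (if m = n then (1 : ℝ) else 0) = 1 := by
      rw [Finset.sum_ite_eq, if_pos hm]
    rw [h1]
    have h2 := mul_le_mul_of_nonneg_left (recip_sum hm) (show (0 : ℝ) ≤ 2 * M by positivity)
    have h3 : Real.log M ≤ Real.log (M + 1) := Real.log_le_log (by linarith) (by linarith)
    have h4 : 1 / 2 ≤ Real.log ((M : ℝ) + 1) := by
      have h5 : Real.log 2 ≤ Real.log ((M : ℝ) + 1) := Real.log_le_log (by norm_num) (by linarith)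
      have := Real.log_two_gt_d9
      linarith
    have h6 : 2 * (M : ℝ) * (2 * (1 + Real.log M)) ≤ 12 * (M * Real.log (M + 1)) := by
      have : 4 * (M : ℝ) * (1 + Real.log M) ≤ 4 * M * (3 * Real.log (M + 1)) :=
        mul_le_mul_of_nonneg_left (by linarith) (by positivity)
      linarith
    linarith
  have hfin : ∫ v in V..(V + T), ‖∑ m ∈ Finset.Icc 1 M, c m * (m : ℂ) ^ (-(I * (v : ℂ)))‖ ^ 2 ≤
      ∑ m ∈ Finset.Icc 1 M, ∑ n ∈ Finset.Icc 1 M, ‖c m‖ * ‖c n‖ * w m n := by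
    have h1 := congrArg norm hI
    rw [Complex.norm_real, Real.norm_eq_abs] at h1
    refine (le_abs_self _).trans ?_
    rw [h1]
    refine (norm_sum_le _ _).trans (Finset.sum_le_sum fun m hm => ?_)
    refine (norm_sum_le _ _).trans (Finset.sum_le_sum fun n hn => ?_)
    rw [norm_mul, norm_mul, RCLike.norm_conj]
    exact mul_le_mul_of_nonneg_left (hJ m hm n hn) (by positivity)
  refine hfin.trans ?_
  have h1 : ∑ m ∈ Finset.Icc 1 M, ∑ n ∈ Finset.Icc 1 M, ‖c m‖ * ‖c n‖ * w m n ≤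
      ∑ m ∈ Finset.Icc 1 M, ∑ n ∈ Finset.Icc 1 M, (‖c m‖ ^ 2 * w m n / 2 + ‖c n‖ ^ 2 * w m n / 2) := by
    refine Finset.sum_le_sum fun m _ => Finset.sum_le_sum fun n _ => ?_
    have h2 : ‖c m‖ * ‖c n‖ ≤ (‖c m‖ ^ 2 + ‖c n‖ ^ 2) / 2 := by nlinarith [sq_nonneg (‖c m‖ - ‖c n‖)]
    have := mul_le_mul_of_nonneg_right h2 (hw0 m n)
    linarith
  refine h1.trans ?_
  have h2 : ∑ m ∈ Finset.Icc 1 M, ∑ n ∈ Finset.Icc 1 M, (‖c m‖ ^ 2 * w m n / 2 + ‖c n‖ ^ 2 * w m n / 2) =
      ∑ m ∈ Finset.Icc 1 M, ‖c m‖ ^ 2 * ∑ n ∈ Finset.Icc 1 M, w m n := by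
    have h3 : ∑ m ∈ Finset.Icc 1 M, ∑ n ∈ Finset.Icc 1 M, ‖c n‖ ^ 2 * w m n / 2 =
        ∑ m ∈ Finset.Icc 1 M, ∑ n ∈ Finset.Icc 1 M, ‖c m‖ ^ 2 * w m n / 2 := by
      rw [Finset.sum_comm]
      refine Finset.sum_congr rfl fun m _ => Finset.sum_congr rfl fun n _ => ?_
      rw [hws]
    simp_rw [Finset.sum_add_distrib]
    rw [h3, ← Finset.sum_add_distrib]
    refine Finset.sum_congr rfl fun m _ => ?_
    rw [← Finset.sum_add_distrib, Finset.mul_sum]
    refine Finset.sum_congr rfl fun n _ => ?_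
    ring
  rw [h2, Finset.mul_sum]
  refine Finset.sum_le_sum fun m hm => ?_
  rw [mul_comm]
  exact mul_le_mul_of_nonneg_right (hrow m hm) (by positivity)

end Pool.Agent.J4H45.RZ
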