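import Pool.Agent.J4H17.RZ.Msq
import Pool.Agent.J4H5.RZ.Stm2

/-! (MVI) mean value theorem for infinite series, from the finite forms of helper17. -/

set_option autoImplicit false

namespace Pool.Agent.J4H45.RZ

open Complex MeasureTheory Filter Topology
open Pool.Agent.J4H5.RZ
open Pool.Agent.J4H17.RZ (xn DN fin_ms double_le int_tendsto)

theorem t_MVI : S_MVI := by
  refine ⟨4, by norm_num, fun b V T hT hs hw => ?_⟩
  have hwn : ∀ n : ℕ, (1 : ℝ) ≤ ((n : ℝ) + 1) * (1 + Real.log ((n : ℝ) + 1)) := by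
    intro n
    have h4 : (0 : ℝ) ≤ n := Nat.cast_nonneg n
    have h3 : 0 ≤ Real.log ((n : ℝ) + 1) := Real.log_nonneg (by linarith)
    nlinarith
  have hs2 : Summable (fun n => ‖b n‖ ^ 2) := by
    refine Summable.of_nonneg_of_le (fun n => sq_nonneg _) (fun n => ?_) hw
    exact le_mul_of_one_le_right (sq_nonneg _) (hwn n)
  have hall : Summable (fun n : ℕ => ‖b n‖ ^ 2 * (T + ((n : ℝ) + 1) * (1 + Real.log ((n : ℝ) + 1)))) := by
    refine ((hs2.mul_left T).add hw).congr ?_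
    intro n
    ring
  have hfin : ∀ N : ℕ, ∫ v in V..(V + T), ‖DN b N v‖ ^ 2 ≤
      4 * (∑' n : ℕ, ‖b n‖ ^ 2 * (T + ((n : ℝ) + 1) * (1 + Real.log ((n : ℝ) + 1))) + (∑' n : ℕ, ‖b n‖) ^ 2) := by
    intro N
    have h1 := (fin_ms b N V T).trans (double_le (fun n => ‖b n‖) (fun n => norm_nonneg _) N)
    have h2 := (abs_le.1 h1).2
    have h3 : ∑ n ∈ Finset.range N, ‖b n‖ ≤ ∑' n : ℕ, ‖b n‖ := hs.sum_le_tsum _ (fun n _ => norm_nonneg _)
    have h4 : 0 ≤ ∑ n ∈ Finset.range N, ‖b n‖ := Finset.sum_nonneg (fun n _ => norm_nonneg _)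
    have h5 : (∑ n ∈ Finset.range N, ‖b n‖) ^ 2 ≤ (∑' n : ℕ, ‖b n‖) ^ 2 := pow_le_pow_left₀ h4 h3 2
    have h6 : ∑ n ∈ Finset.range N, ‖b n‖ ^ 2 * (T + ((n : ℝ) + 1) * (1 + Real.log ((n : ℝ) + 1))) ≤
        ∑' n : ℕ, ‖b n‖ ^ 2 * (T + ((n : ℝ) + 1) * (1 + Real.log ((n : ℝ) + 1))) := by
      refine hall.sum_le_tsum _ (fun n _ => ?_)
      have := hwn n
      have h7 : 0 ≤ T + ((n : ℝ) + 1) * (1 + Real.log ((n : ℝ) + 1)) := by linarith
      positivity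
    have h8 : ∑ n ∈ Finset.range N, ‖b n‖ ^ 2 * (T + ((n : ℝ) + 1) * (1 + Real.log ((n : ℝ) + 1))) =
        T * ∑ n ∈ Finset.range N, ‖b n‖ ^ 2 + ∑ n ∈ Finset.range N, ‖b n‖ ^ 2 * (xn n * (1 + Real.log (xn n))) := by
      rw [Finset.mul_sum, ← Finset.sum_add_distrib]
      apply Finset.sum_congr rfl
      intro n _
      unfold xn
      ring
    have h9 : 0 ≤ T * ∑ n ∈ Finset.range N, ‖b n‖ ^ 2 :=
      mul_nonneg hT (Finset.sum_nonneg fun n _ => sq_nonneg _)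
    linarith
  exact le_of_tendsto (int_tendsto hs V T) (Eventually.of_forall hfin)

end Pool.Agent.J4H45.RZ
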